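import Pool.Agent.Helper667_Sidon.Final

/-- For every real `α` between `1/3` and `√2 - 1` there is an infinite Sidon set `A` of positive
integers with `A(n) ≥ n ^ α / (log n) ^ 3` for all large `n` and, at the same time,
`A(n) ≥ n ^ ((1 - α) / (1 + α)) / (log n) ^ 3` for infinitely many `n`.  At `α = √2 - 1` both
exponents are `√2 - 1`. -/
theorem Pool.Agent.Results.MP_ebe006_nt.JointGrowth.result (α : ℝ) (h1 : 1/3 ≤ α)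
    (h2 : α ≤ √2 - 1) :
    ∃ A : Set ℕ, 0 ∉ A ∧
      (∀ a ∈ A, ∀ b ∈ A, ∀ c ∈ A, ∀ d ∈ A, a ≤ b → c ≤ d → a + b = c + d → a = c ∧ b = d) ∧
      (∃ n₀ : ℕ, ∀ n : ℕ, n₀ ≤ n →
        (n:ℝ)^α / (Real.log n)^3 ≤ ((A ∩ Set.Icc 1 n).ncard : ℝ)) ∧
      (∀ n₀ : ℕ, ∃ n : ℕ, n₀ ≤ n ∧
        (n:ℝ)^((1-α)/(1+α)) / (Real.log n)^3 ≤ ((A ∩ Set.Icc 1 n).ncard : ℝ)) := by
  obtain ⟨A, hA0, hAS, hlo, hhi⟩ := Pool.Agent.Helper667_Sidon.main α h1 h2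
  refine ⟨A, hA0, hAS, ?_, ?_⟩
  · exact Filter.eventually_atTop.mp hlo
  · exact Filter.frequently_atTop.mp hhi
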